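import Pool.Agent.X212.Roth.Space

/-!
# A Rothberger space which is not `ω`-Rothberger, in ZFC

Q1 asks whether it is consistent with ZFC that every Rothberger space is `ω`-Rothberger.  The answer
is no: there is a regular Hausdorff space which is Rothberger but not `ω`-Rothberger.

Idea. Let `T` be the tree of the finite modifications of the functions of a coherent sequence of
finite-to-one functions on the countable ordinals, and let `X` be the line of the beginnings and the
ends of the nodes of `T`, in the lexicographic order (all extensions of a node are between its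
beginning and its end).  The space is the sum of `X` with the topology of the intervals `[a, b)` and
of `X` with the topology of the intervals `(a, b]`.

* For every open cover of `X` in one of the topologies all but countably many nodes are contained
  (with all their extensions) in a member of the cover: otherwise these exceptional nodes would be an
  uncountable subtree `B`; as `T` has no uncountable branch, there would be a node `t` of limit level
  which turns to the left (to the right) inside `B` cofinally often, so that every neighbourhood of the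
  end (of the beginning) of `t` contains a node of `B` with all its extensions.
  So for countably many covers there is one countable level such that each of the countably many nodes
  of this level is contained in a member of each of the covers.
* If `x` is in both copies of `X` then `[x, →) × (←, x]` meets the diagonal in `(x, x)` only; the
  diagonal is an uncountable closed discrete subset of the square, and the open sets which contain
  both copies of finitely many points only are an `ω`-cover without a countable `ω`-subcover.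
-/

set_option autoImplicit false

open Set Topology

namespace Pool.Agent.Results.MP_f9bcb0_lc.RothbergerNotOmega

/-- `𝒰` is an open cover of `X`. -/
def IsOpenCover {X : Type} [TopologicalSpace X] (𝒰 : Set (Set X)) : Prop :=
  (∀ U ∈ 𝒰, IsOpen U) ∧ ⋃₀ 𝒰 = Set.univ

/-- `𝒰` is an `ω`-cover of `X`: an open cover with `X ∉ 𝒰` such that every finite subset of `X` is
contained in some member of `𝒰`. -/
def IsOmegaCover {X : Type} [TopologicalSpace X] (𝒰 : Set (Set X)) : Prop :=
  IsOpenCover 𝒰 ∧ Set.univ ∉ 𝒰 ∧ ∀ F : Set X, F.Finite → ∃ U ∈ 𝒰, F ⊆ U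

/-- `X` is Rothberger: `S₁(𝒪, 𝒪)`. -/
def Rothberger (X : Type) [TopologicalSpace X] : Prop :=
  ∀ 𝒰 : ℕ → Set (Set X), (∀ n, IsOpenCover (𝒰 n)) →
    ∃ U : ℕ → Set X, (∀ n, U n ∈ 𝒰 n) ∧ ⋃ n, U n = Set.univ

/-- `X` is `ω`-Rothberger: `S₁(Ω, Ω)`. -/
def OmegaRothberger (X : Type) [TopologicalSpace X] : Prop :=
  ∀ 𝒰 : ℕ → Set (Set X), (∀ n, IsOmegaCover (𝒰 n)) →
    ∃ U : ℕ → Set X, (∀ n, U n ∈ 𝒰 n) ∧ IsOmegaCover (Set.range U)

open Pool.Agent.X212.Roth

theorem t3_sum {A B : Type} [TopologicalSpace A] [TopologicalSpace B] [T3Space A] [T3Space B] :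
    T3Space (A ⊕ B) := by
  have h : RegularSpace (A ⊕ B) := by
    apply RegularSpace.of_exists_mem_nhds_isClosed_subset
    rintro (x | x) s hs
    · have h1 : Sum.inl ⁻¹' s ∈ 𝓝 x := continuous_inl.continuousAt hs
      obtain ⟨t, ht, htc, hts⟩ := exists_mem_nhds_isClosed_subset h1
      refine ⟨Sum.inl '' t, isOpenMap_inl.image_mem_nhds ht, ?_, Set.image_subset_iff.2 hts⟩
      exact Topology.IsClosedEmbedding.inl.isClosedMap t htc
    · have h1 : Sum.inr ⁻¹' s ∈ 𝓝 x := continuous_inr.continuousAt hs
      obtain ⟨t, ht, htc, hts⟩ := exists_mem_nhds_isClosed_subset h1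
      refine ⟨Sum.inr '' t, isOpenMap_inr.image_mem_nhds ht, ?_, Set.image_subset_iff.2 hts⟩
      exact Topology.IsClosedEmbedding.inr.isClosedMap t htc
  exact { }

/-- **Theorem.** There is a regular Hausdorff space which is Rothberger, but not `ω`-Rothberger; its
square is not Lindelöf. -/
theorem result : ∃ (Z : Type) (_ : TopologicalSpace Z),
    T3Space Z ∧ Rothberger Z ∧ ¬ LindelofSpace (Z × Z) ∧ ¬ OmegaRothberger Z := by
  refine ⟨Z X, inferInstance, t3_sum, ?_, ?_, ?_⟩
  · intro 𝒰 h𝒰
    obtain ⟨P, hP, hPu, hPs⟩ := pieces 𝒰 (fun n => (h𝒰 n).1) (fun n => (h𝒰 n).2)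
    have hne : P.Nonempty := by
      by_contra hne
      rw [Set.not_nonempty_iff_eq_empty] at hne
      rw [hne, Set.sUnion_empty] at hPu
      have hX : Nonempty X := by
        by_contra hX
        rw [not_nonempty_iff] at hX
        exact uncountable_X inferInstance
      obtain ⟨x⟩ := hX
      have : il x ∈ (Set.univ : Set (Z X)) := trivial
      rw [← hPu] at this
      exact this
    obtain ⟨p, hp⟩ := hP.exists_eq_range hne
    have h1 : ∀ n, ∃ U ∈ 𝒰 n, p n ⊆ U := fun n => hPs (p n) (hp ▸ Set.mem_range_self n) n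
    choose U hU hpU using h1
    refine ⟨U, hU, ?_⟩
    rw [Set.eq_univ_iff_forall]
    intro x
    have : x ∈ ⋃₀ P := by rw [hPu]; trivial
    obtain ⟨q, hq, hx⟩ := this
    rw [hp] at hq
    obtain ⟨n, rfl⟩ := hq
    exact Set.mem_iUnion.2 ⟨n, hpU n hx⟩
  · intro hL
    choose O P hO hP hpO hqP hsub using (exists_nhds (L := X))
    obtain ⟨r, hr, hru⟩ := isLindelof_univ.elim_countable_subcover
      (fun p : Z X × Z X => O p.1 p.2 ×ˢ P p.1 p.2) (fun p => (hO _ _).prod (hP _ _))
      (fun p _ => Set.mem_iUnion.2 ⟨p, hpO _ _, hqP _ _⟩)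
    apply uncountable_X
    rw [← Set.countable_univ_iff]
    refine (hr.biUnion (t := fun p _ => {x : X | il x ∈ O p.1 p.2 ∧ ir x ∈ P p.1 p.2})
      (fun p _ => (hsub p.1 p.2).countable)).mono ?_
    intro x _
    have : ((il x, ir x) : Z X × Z X) ∈ ⋃ p ∈ r, O p.1 p.2 ×ˢ P p.1 p.2 := hru trivial
    simp only [Set.mem_iUnion] at this
    obtain ⟨p, hp, h⟩ := this
    exact Set.mem_biUnion hp ⟨h.1, h.2⟩
  · intro hO
    have hcov : IsOmegaCover {V : Set (Z X) | IsOpen V ∧ {x : X | il x ∈ V ∧ ir x ∈ V}.Finite} := by
      have h1 : ∀ F : Set (Z X), F.Finite →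
          ∃ U ∈ {V : Set (Z X) | IsOpen V ∧ {x : X | il x ∈ V ∧ ir x ∈ V}.Finite}, F ⊆ U := by
        intro F hF
        obtain ⟨V, hV, hFV, hfin⟩ := exists_open hF
        exact ⟨V, ⟨hV, hfin⟩, hFV⟩
      refine ⟨⟨fun U hU => hU.1, ?_⟩, ?_, h1⟩
      · rw [Set.eq_univ_iff_forall]
        intro z
        obtain ⟨U, hU, hz⟩ := h1 {z} (Set.finite_singleton z)
        exact ⟨U, hU, hz rfl⟩
      · rintro ⟨-, hfin⟩
        apply uncountable_X
        rw [← Set.countable_univ_iff]
        refine hfin.countable.mono ?_
        intro x _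
        exact ⟨Set.mem_univ _, Set.mem_univ _⟩
    obtain ⟨U, hU, hUc⟩ := hO (fun _ => _) (fun _ => hcov)
    apply uncountable_X
    rw [← Set.countable_univ_iff]
    refine (Set.countable_iUnion (fun n => (hU n).2.countable)).mono ?_
    intro x _
    obtain ⟨V, ⟨n, rfl⟩, hV⟩ := hUc.2.2 {il x, ir x} (Set.toFinite _)
    exact Set.mem_iUnion.2 ⟨n, hV (Or.inl rfl), hV (Or.inr rfl)⟩

end Pool.Agent.Results.MP_f9bcb0_lc.RothbergerNotOmega
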